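import Pool.Agent.Run7.h286.PL.SurfLaw

/-!
# The generalized Beilinson conjecture for the twists `D(t) y ^ 2 = f(x, t)` of a surface

Let `k` be a finite field of odd characteristic with `q` elements, `g ≥ 1`, and let
`f = x ^ (2 g + 1) + f_{2 g - 1} x ^ (2 g - 1) + ... + f_0` be a polynomial over `k[t]` with
`deg f_j ≤ 2 N (2 g + 1 - j)`, `N ≥ 1`, such that the discriminant of `f` (with respect to `x`) is a squarefree
polynomial in `t` and the polynomial over `k` formed by the coefficients of `t ^ (2 N (2 g + 1 - j))` in the `f_j`
is irreducible. (If the characteristic is larger than `2 g + 1` these `f` are a positive proportion of all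
the `f` with `deg f_j ≤ 2 N (2 g + 1 - j)`, as `N` tends to infinity.) For a squarefree `D` in `k[t]` let `Y_D` be a
smooth projective model over `k` of the surface `D(t) y ^ 2 = f(x, t)`; these are all the quadratic twists of
`Y_1`, their geometric genus tends to infinity with the degree of `D`. Let `J_D` be the Jacobian of the generic
fibre of `Y_D`, a curve of genus `g` over `K = k(t)`, and `Sel(D)` its 2-Selmer group.

Theorem. Let `u` in `k`, `u ≠ 0`, and let `D` run through all squarefree polynomials of degree `m` with leading
coefficient `u` which are prime to the discriminant of `f`, `m → ∞` (the field `k`, `g` and `f` are fixed).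
1. The proportion of the `D` with `dim Sel(D) = d` tends to
   `p_d = ∏_{j ≥ 0} (1 + 2 ^ (-j)) ^ (-1) ∏_{i = 1}^d 2 / (2 ^ i - 1)`, the law of Poonen and Rains.
2. The average of `|Sel(D)| ^ j` tends to `(1 + 2) (1 + 4) ... (1 + 2 ^ j)`; the average of `φ(dim Sel(D))` tends to
   `∑ p_d φ(d)` for every `φ` of at most exponential growth.
3. For every `D`: `J_D(K)` has no element of order two and `|Sel(D)| = [J_D(K) : 2 J_D(K)] |Sha(J_D)[2]|`.
4. For at least `20.97` percent of the `D` the group `J_D(K)` is uniquely divisible by two and the 2-primary part
   of the Tate-Shafarevich group of `J_D` is zero.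

Consequences (not formalised). The Brauer group of `Y_D` is `Sha(J_D)` (Artin, Grothendieck). If its 2-primary
part is finite, then the Brauer group is finite and the Tate conjecture holds for the divisors on `Y_D` and every
prime `ℓ` (Tate, Milne, Kato and Trihan). So by 4, for at least `20.97` percent of these twists `Y_D` in the natural
ordering, over a fixed finite field, for every `g`, the question has a positive answer for `X = Y_D`, all `i` and
all `ℓ`: `cl_1` is surjective by the Tate conjecture and injective because `Pic^0(Y_D)` is finite, and `cl_0`, `cl_2` are
isomorphisms for all surfaces (the group of zero-cycles of degree zero over a finite field is torsion). With the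
result on open subsets quoted on the page (semisimplicity holds too) the same follows for the open subsets of
these `Y_D`. By 2 and 3 the number `2 ^ rank |Br(Y_D)[2]|` has mean exactly `3`.

`J(L)` is the Picard group of the affine coordinate ring `L[x, y] / (y ^ 2 - F)`, because the only point at
infinity of the curve is rational (`Pool/Agent/Y713/SE/Stm.lean`); the curve `D y ^ 2 = f(x)` has the equation
`y ^ 2 = F(x)` with `F = D ^ (2 g + 1) f(x / D)`. The 2-Selmer group and `Sha[2]` are defined by continuous cocycles
in `Pool/Agent/Run7/h286/PL/SelDef.lean`, the family, the twists and the law in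
`Pool/Agent/Run7/h286/PL/SurfLaw.lean`.

The proof is described in `Results/MP_60d5ce_nt/ExactLawOfTwists.lean`: projects PRL (helper286, with helpers 160,
209, 212, 215, 216, 270, 303, 382, 416, 502, 547, 704, 711, 760, 803, 824, 847, 886, 908, 957) and TG
(helper784, with helpers 68, 81, 286, 382, 646, 688, 711, 760, 779, 781, 811, 886, 908, 973), and the
libraries TS (helper875), PJ and JB (helper352) and PP (helper874).
-/

set_option autoImplicit false
set_option linter.all false

namespace Pool.Agent.Results.MP_3af9db_ag.AllTwistsOfSurfaces

open Polynomial
open Run7.h286.SurfLaw (InFamily ExactLaw Values PositiveProportion)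

/-- Let `k` be a finite field of odd characteristic, `K = k(t)`, `g ≥ 1`, `f` in the family (monic of
degree `2 g + 1` over `k[t]`, `f_{2 g} = 0`, `deg f_j ≤ 2 N (2 g + 1 - j)`, `N ≥ 1`, squarefree discriminant,
irreducible reduction at infinity), `u ≠ 0` in `k`, and let `D` run through the squarefree polynomials
of degree `m` with leading coefficient `u`, prime to the discriminant, `m → ∞`. Let `J_D` be the Jacobian of the
generic fibre of the surface `D(t) y ^ 2 = f(x, t)`.
(1) The proportion of the `D` for which the 2-Selmer group of `J_D` has order `2 ^ d` tends to `prob d`. (2) The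
average of the `j`-th power of the order tends to `(1 + 2) ... (1 + 2 ^ j)`. (3) The average of `φ(dimension)` tends
to `∑ prob d φ(d)` for all `φ` of at most exponential growth. (4) For every `D` the order is a power of two,
`J_D(K)` has no 2-torsion, `|Sel| = [J_D(K) : 2 J_D(K)] |Sha[2]|`, and if the Selmer group is trivial, then
`J_D(K)` is uniquely divisible by two and the 2-primary part of the Tate-Shafarevich group is zero; this is so for
at least `20.97` percent of the `D` of every large degree.
(5) Values: the sum of the `prob d` is `1`, `prob 0 > 0.2097`, `prob 0 + prob 1 > 0.629`; the mean is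
`∑ 1 / (2 ^ j + 1) < 1.2646`; the even dimensions have probability one half.
(6) If the characteristic is larger than `2 g + 1`, a positive proportion of all `f` with
`deg f_j ≤ 2 N (2 g + 1 - j)` belongs to the family. -/
theorem result (g : ℕ) (hg : 1 ≤ g) (k : Type) [Field k] [Finite k] (h2 : (2 : k) ≠ 0) (K : Type)
    [Field K] [Algebra k[X] K] [IsFractionRing k[X] K] :
    (∀ (N : ℕ) (f : k[X][X]) (u : k), 1 ≤ N → InFamily g N f → u ≠ 0 → ExactLaw K g f u) ∧
    Values ∧ (((2 * g + 1).factorial : k) ≠ 0 → PositiveProportion g k) :=
  Run7.h286.SurfLaw.main g hg k h2 K

end Pool.Agent.Results.MP_3af9db_ag.AllTwistsOfSurfaces
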