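import Pool.Agent.Run7.h848.CM.Exp

/-!
# Cycle class maps of arbitrary varieties over finite fields: injective, or the kernels are large

Let `U` be ANY variety over the finite field `𝔽` with `q` elements (singular, not complete, …) for which
the cycle class maps `cl_i : CH_i(U) ⊗ ℚ_ℓ → H_(2i)(U_𝔽̄, ℚ_ℓ(i))^G` of the question are injective for all
`i`: for instance a point, a cellular variety, a curve, or a variety which is stratified by such. For a
smooth projective variety `Y` let

* `c(Y)` be the sum over all `i` of the cycle class maps
  `cl_i : CH_i(U × Y) ⊗ ℚ_ℓ → H_(2i)((U × Y)_𝔽̄, ℚ_ℓ(i))^G`,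
* `ρ(Y)` the rank of the group of the cycles of all codimensions on `Y` modulo numerical equivalence.

We say that `Tate(Y, a)` holds for `a` in `ℚ_ℓ` if the dimension of the generalized eigenspace of
Frobenius for `a` on `H^*(Y_𝔽̄, ℚ_ℓ)` is the rank of the group of the cycles of codimension `j` modulo
numerical equivalence if `a = q ^ j`, and zero if `a` is not a power of `q`. For `a = q ^ j` this is the
strong form of the conjecture of Tate in codimension `j`; for other numbers it says that `a` is not an
eigenvalue of Frobenius.

**Theorem 1.** Suppose that `Tate(Y, a)` is true and that there is an element `v ≠ 0` of the kernel of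
`c(Y)` on which the Frobenius endomorphism of `Y` (that is, `1 × Fr` on `U × Y`) acts as multiplication
by `a`. Then

  `dim ker c(Y ^ (n + 1)) ≥ (n + 1) ρ(Y ^ n)` for ALL `n ≥ 0`,

and the dimension `σ(Y ^ (2 n))` of the group of the cycles on `Y ^ (2 n)` modulo smash-nilpotence (a
quotient of the Chow group) is larger than `ρ(Y ^ (2 n))` by an exponentially growing factor:

  `σ(Y ^ (2 n)) ≥ ∑ i ≤ n, (n choose i) ρ(Y ^ (2 (n - i))) ≥ (b ^ 2 + 1) ^ n / (n + 1) ^ (b ^ 2)` for ALL `n`,

`b` the sum of the Betti numbers of `Y` (while `ρ(Y ^ (2 n)) ≤ b ^ (2 n)`).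

**Theorem 2.** Let `U` be the point (or any variety for which the kernels `ker c(Y)` are the sums of
their parts on which the Frobenius of `Y` acts as a power of `q`). If the strong form of the conjecture
of Tate holds for `Y` in all codimensions then either `c(Y)` is injective or
`dim ker c(Y ^ (n + 1)) ≥ (n + 1) ρ(Y ^ n)` for all `n`. So for a variety with the conjecture of Tate ONE
inequality implies the injectivity in question, for example

  `dim ker c(Y × Y) < 2 ρ(Y)` implies that all `cl_i` are injective, hence (with the conjecture of Tate)
  bijective, for `Y`, and so does one of the inequalities `dim CH_*(Y ^ (2 n))_ℚ < (b ^ 2 + 1) ^ n / (n + 1) ^ (b ^ 2)`.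

Nothing is assumed on the powers of `Y`. (Known: if homological and numerical equivalence agree and the
conjecture of Tate is true for all varieties, and motives are finite-dimensional, then `cl_i` is
injective; Geisser, Kahn.)

**Theorem 3** (law for all powers). Let `U` be a variety as above and `X` ANY smooth projective variety
over `𝔽`. The quotients of the dimensions of the kernel and of the cokernel of `c(X ^ n)` and of `ρ(X ^ n)`
converge for `n → ∞` to elements `Nker`, `Ncok` of `{0, 1, 2, …, ∞}`. We have `Nker = 0` if and only if all
`cl_i` are injective for `U × X ^ n` and ALL `n`, and `Ncok = 0` if and only if all are onto for all `n`;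
so the maps `cl_i` of all `U × X ^ n` are isomorphisms if and only if both limits are zero. If there is one
`n` and an element of the kernel as in Theorem 1 for `Y = X ^ n` then `Nker = ∞`; in particular if `U` is
the point and the conjecture of Tate is true for all powers of `X` (for instance if `X` is an ordinary
K3 surface) then `Nker = 0` or `Nker = ∞`.

**Theorem 4** (gap). If one `cl_i` is not injective (not onto) for `U × X ^ s` for one `s`, then for ALL
`n` with `2 n ≥ 128 (s + 1) ^ 2 b ^ (2 s + 6)`, `b` the sum of the Betti numbers of `X`, the dimension of the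
kernel (of the cokernel) of `c(X ^ (2 n))` is at least `ρ(X ^ (2 n)) / 2` and at least
`b ^ (2 n) / (2 (n + 1) ^ (b ^ 2))`.

The setting. `C` is the category of the smooth projective varieties over `𝔽` with the groups
`CH^*(Y × Z) ⊗ ℚ_ℓ` (all codimensions) as morphisms, a rigid symmetric monoidal category in which all
objects are self-dual; `Λ = ℚ_ℓ`, `T = h(X)`, `tp T n = h(X ^ n)`, `R` is the `ℓ`-adic cohomology with
coefficients extended to an algebraic closure `K` of `ℚ_ℓ`. The sign conjecture `C⁺` (in `IsPow`) is
known for all `X` by Katz and Messing. The structure `CycleMap` (in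
`Pool/Agent/Run7/h848/CM/Defs.lean`) records what is used: correspondences between smooth projective
varieties act on the Chow groups `CH_i(U × Y)` and on the homology of `U × Y`, and the cycle class maps
are compatible with this action.

Proof. Let `v ≠ 0` be as in Theorem 1, and let `I` be the space of the correspondences of `Y` which kill
`v`. It contains the products of `Fr - a` with all correspondences, and all correspondences which factor
through a point, since `c` is injective for `U`. If `I` did not contain the diagonal modulo numerical
equivalence, there would be a correspondence `g` with `tr (x g) = 0` for all `x` in `I` and `tr g ≠ 0`.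
But the projector of the cohomology to the generalized eigenspace for `a` is, by `Tate(Y, a)`, a linear
combination of correspondences which factor through a point, and the complementary projector is a
combination of products with `Fr - a`, hence `tr g = 0` (`cut` in `PF/Cut.lean`). So there is a
correspondence `e` which is numerically equivalent to the diagonal and kills `v`. Now insert `v` into
the `n + 1` factors of `Y ^ (n + 1)`, with arbitrary cycles on the other factors: `e` separates the factors
(`phantom` in `N64/AF` of the starting tree). Moreover `1 - e` is numerically trivial and not nilpotent,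
since it fixes `v`; for the exponential growth see `MP_bf8edd_ag.ExponentialGap`. The law and the gap are those of `N64/AF`, for the functors
of the kernels and of the cokernels; for finite `Nker` numerically trivial correspondences act
nilpotently on the kernels, and `v = (1 - e) v` is a contradiction. The case of the K-groups
(`U` the point, `m ≥ 1`) is in `MP_27fd67_ag.TateAndGrowth`.
-/

set_option autoImplicit false

open CategoryTheory MonoidalCategory
open Pool.Agent.Y112.SR Pool.Agent.Y112.KD Pool.Agent.N64.AF Pool.Agent.Run7.h184.AJ
open Pool.Agent.Run7.h848.CM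

namespace Pool.Agent.Results.MP_3af9db_ag.GrowthOrInjective

universe v u w t x

/-- Cycle class maps of varieties over a finite field: growth of the kernels and of the groups of
cycles under the conjecture of Tate, the law for all powers, and the gap. -/
theorem result {C : Type u} [Category.{v} C] [Preadditive C] [MonoidalCategory C]
    [MonoidalPreadditive C] [SymmetricCategory C] [RightRigidCategory C] [IsIdempotentComplete C]
    {Λ : Type t} [Field Λ] [CharZero Λ] [Linear Λ C] [MonoidalLinear Λ C]
    {K : Type w} [Field K] [IsAlgClosed K] [Algebra Λ K] {R : SuperRealisation C K}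
    (A : CycleMap.{v, u, t, x} C Λ) {T : C} [ExactPairing T T] (h : IsPow Λ R T) :
    (∀ (Y : C) (a : Λ), A.Tate R Y a → A.eig Y a ≠ ⊥ → A.Grows Y ∧
      ∀ _ : ExactPairing Y Y, IsPow Λ R Y → ExpoMany Λ R Y) ∧
    (∀ (q : Λ) (Y : C), A.Split q Y → (∀ j : ℕ, A.Tate R Y (q ^ j)) → ¬ A.Inj Y → A.Grows Y ∧
      ∀ _ : ExactPairing Y Y, IsPow Λ R Y → ExpoMany Λ R Y) ∧
    (∃ Nker Ncok : ℕ∞, RatioTo Λ T (fun n => kerDim A.c (tp T n)) Nker ∧
      RatioTo Λ T (fun n => cokerDim A.c (tp T n)) Ncok ∧
      (Nker = 0 ↔ ∀ n, A.Inj (tp T n)) ∧ (Ncok = 0 ↔ ∀ n, A.Onto (tp T n)) ∧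
      (∀ (n : ℕ) (a : Λ), A.Tate R (tp T n) a → A.eig (tp T n) a ≠ ⊥ → Nker = ⊤) ∧
      ∀ q : Λ, (∀ n, A.Split q (tp T n) ∧ ∀ j : ℕ, A.Tate R (tp T n) (q ^ j)) →
        Nker = 0 ∨ Nker = ⊤) ∧
    ∀ m n : ℕ, 128 * (m + 1) ^ 2 * bt R T ^ (2 * m + 6) ≤ 2 * n →
      (¬ A.Inj (tp T m) → Large Λ R T n (kerDim A.c (tp T (2 * n)))) ∧
      (¬ A.Onto (tp T m) → Large Λ R T n (cokerDim A.c (tp T (2 * n)))) := by
  obtain ⟨h1, h2, h3, h4⟩ := A.main h
  refine ⟨fun Y a ht hne => ⟨h1 Y a ht hne, fun _ hY => A.expo_many hY ht hne⟩,
    fun q Y hs ht hY => ⟨h2 q Y hs ht hY, fun _ hY' => ?_⟩, h3, h4⟩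
  obtain ⟨j, hj⟩ := A.exists_eig hs hY
  exact A.expo_many hY' (ht j) hj

end Pool.Agent.Results.MP_3af9db_ag.GrowthOrInjective
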