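import Pool.Agent.Run7.h199.CV.GB3

/-!
# Cycle classes on products of arbitrary varieties with cyclic coverings: separated eigenvalues

Let `κ` be a finite field with `q = c ^ f` elements, and `𝒱` a class of smooth projective varieties over
`κ`, closed under products, with Chow groups `A` with rational coefficients and a Weil cohomology theory
`H` (framework of helper492 and helper484: `TheoryData`, `IsChow`, `IsWeil`). Let `X_i` be varieties in
`𝒱`, of any dimensions `n_i`, which are models of cyclic coverings

  `w ^ N_i = ∏ l_{i,k} (x) ^ a_{i,k}`

of projective spaces, branched along `s_i` hyperplanes `l_{i,k} = 0` over `κ`, with exponents prime to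
`N_i`, where `N_i` divides `q - 1` (`IsModel`: the cohomology is generated by the classes of cycles and a
part `T`, pure of weight `n_i`, without invariants under the covering group, for which the trace formula
holds), `Z` a variety in `𝒱`, and `U` **any** variety over `κ` (open, singular, reducible), with the étale
homology `M` and the Frobenius `μ`, and `χ` a polynomial with rational coefficients, `χ(0) ≠ 0`,
`χ(μ) = 0`. All these definitions, and `Conclusions`, are those of the starting hand-in
`MP_3af9db_ag.HyperplaneCoverings` (helper876). Let `N` be a common multiple of the `N_i`, and `weight X j`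
the mean over the orbit `j, c j, …, c ^ (f - 1) j` of the sum of the fractional parts of `j a_k / N_i`.

A complex number `b` is *separated* from the coverings (`IsSeparated`) if for every nonempty finite set
`I` of indices and all `j_i` not divisible by `N_i` (`i ∈ I`) there is a `u` prime to `N` such that one of
the following holds:

* (automorphism) some automorphism of the field of algebraic numbers maps `b` to `b` times a root of
  unity, acts on the roots of unity of order `N` as the power `v`, and
  `∑ weight X_i (v u j_i) - ∑ weight X_i (u j_i) > ∑ (s_i - n_i - 2)`;
* (level) `q ^ λ b / b̄` is an algebraic integer and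
  `∑ weight X_i (u j_i) + λ / 2 < ∑ (n_i / 2 + 1)`.

**Theorem.** (1) Suppose that `1` and the products `b` of the eigenvalues of Frobenius on `H(Z)` and the
complex roots of `χ` are separated (and algebraic with `|b| ^ 2 = q ^ j`: theorem of Deligne). Let `V` be
the product of `Z` and of finitely many of the `X_i` (pairwise different), and `d = dim V - dim Z`. For
every integer `i`:
* `cl_i` is surjective for `V × U` if and only if `cl_{i-l}` is surjective for `Z × U` for `0 ≤ l ≤ d`.
* `SS_i(V × U)` is true if and only if `SS_{i-l}(Z × U)` is true for `0 ≤ l ≤ d`.
* If homologically trivial self-correspondences of degree zero of the products `V` are nilpotent, and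
  `χ (φ) = 0` on the Chow groups of the `X × U`, then `cl_i` is injective (**an isomorphism**) for `V × U`
  if and only if the `cl_{i-l}`, `0 ≤ l ≤ d`, are injective (isomorphisms) for `Z × U`. So the answer to Q1
  for `V × U` is the same as for `Z × U`; if `Z` is a point, as for `U`.

(2) If complex conjugation of the roots of unity of order `N` is induced by an automorphism which fixes
`b` up to a root of unity, then `b` is separated if for all `I`, `j` there is a `u` prime to `N` with
`∑ weight X_i (u j_i) < ∑ (n_i / 2 + 1)`.

(3) Let the `N_i` be different prime numbers, `c ≡ 1 mod N_i`, and `X_i` the covering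
`w ^ N_i = l_1 ⋯ l_{N_i}` of the projective space of dimension `n_i = N_i - 2` (for hyperplanes in general
position the resolutions are Calabi-Yau varieties; `N_i = 3`: an elliptic curve). Then an algebraic
number `b` is separated **if for every `i` some positive power of `b` generates a field which does not
contain the roots of unity of order `N_i`**.

(4) In particular `b` is separated from such `X_i` if the degree of `b` over `ℚ` is less than `N_i - 1` for
all `i`.

Hence for odd `N_i` the equivalences of (1) hold for **all** `Z` and `U`, of arbitrary dimension and level,
for which the products `b` satisfy the condition of (3), for example (if the characteristic polynomials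
of the Frobenius on the `H^a(Z)` have rational coefficients) if `b_a(Z) deg χ < N_i - 1` for all `a` and
`i`. In the starting hand-in one level `λ` was used for all `b`, or the cyclotomic polynomial of order
`N` had to be irreducible over the field generated by all `b`; this excludes for instance all powers
`Z` of large dimension of an elliptic curve with complex multiplication by `ℚ(√(-N_i))`, which are
allowed here for `N_i > 3`.

The proof. Let `α_i` be eigenvalues of the Frobenius on `T_i` (`i ∈ I`), and suppose that `b ∏ α_i` is a
power of `q` times a root of unity. Embed the algebraic numbers into an algebraic closure of the field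
of `c`-adic numbers such that `α_i` belongs to the exponent `u j_i`. By the theorem of Stickelberger on
Gauss sums the valuation of `∏ α_i` is at least `∑ (n_i + 1) - ∑ weight X_i (u j_i)`, and by the same
estimate for the complex conjugates the valuation of `∏ τ α_i` is at most
`∑ (s_i - 1) - ∑ weight X_i (v u j_i)`. Since `τ` fixes `b` up to a root of unity, the two products have the
same valuation. So there are no resonances, and the method of the starting hand-in applies.

helper199; built on the library of the starting files (`N876`: helper876, in particular the proof of
(1) from the absence of resonances; estimates of sums over hyperplane arrangements by Gauss sums: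
helper528 and helpers 800, 883, 135, 563, 271, 540, 400, 999, 782, 605, 346; traces on eigenspaces:
helper117; correspondences, nilpotence and the Kunneth formula: helpers 484, 492, 550).
-/

set_option autoImplicit false

open Polynomial CategoryTheory AlgebraicGeometry

namespace Pool.Agent.Results.MP_3af9db_ag.SeparatedCoverings

open Pool.Agent.H914 Pool.Agent.H914.VarClass Pool.Agent.H914.VarClass.Obj Pool.Agent.W492.BB
  Pool.Agent.W484.CK Pool.Agent.N876.GB3 Run7.h199.CV.GB3

/-- **Cycle classes on products of arbitrary varieties with cyclic coverings branched along hyperplanes: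
separated eigenvalues of the Frobenius.** -/
theorem result (c : ℕ) [Fact c.Prime] (κ : Type) [Field κ] [Fintype κ] [CharP κ c] {ι : Type}
    (C : ι → Covering κ) (f : ℕ) :
    -- (1) the theorem for separated eigenvalues
    (∀ N : ℕ, IsSystem C c f N →
      ∀ {𝒱 : VarClass κ} (A : TheoryData.{0, 0, 0} 𝒱 ℚ) [IsChow A] {K : Type} [Field K]
        [IsAlgClosed K] [CharZero K] (H : WeilTheoryData.{0, 0, 0} A K) [IsWeil H] (τ : K →+* ℂ)
        (F : ∀ X : 𝒱.Obj, X ⟶ X) (X : ι → 𝒱.Obj) (Z : 𝒱.Obj) (χ : ℚ[X]),
        IsSeparatedSystem C c f N H τ F X Z χ → ∀ U : Homology K, IsHomology U χ →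
        ∀ T : Theory A, IsTheory T → HasFrobenius T F (Fintype.card κ) →
        ∀ reg : ∀ X, T.M X → U.R H X, IsRegulator T reg → ∀ L : List ι, L.Nodup →
        Conclusions F (Fintype.card κ) χ X Z T reg L) ∧
    -- (2) complex conjugation
    (∀ N : ℕ, IsSystem C c f N → ∀ b : ℂ, FixedWith N (N - 1) b →
      (∀ I : Finset ι, I.Nonempty → ∀ j : ι → ℕ, (∀ i ∈ I, ¬ (C i).N ∣ j i) →
        ∃ u : ℕ, u.Coprime N ∧
          ∑ i ∈ I, (C i).weight c f (u * j i) < ∑ i ∈ I, (((C i).n : ℚ) / 2 + 1)) →
      IsSeparated C c f N b) ∧
    (∀ [Fintype ι], Fintype.card κ = c ^ f → (∀ i, IsSpecial (C i)) → (∀ i, c % (C i).N = 1) →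
      (∀ i i', i ≠ i' → (C i).N ≠ (C i').N) →
      -- (3) numbers which are separated from the special coverings
      (∀ b : ℂ, IsAlgebraic ℚ b →
        (∀ i, ∃ m : ℕ, 0 < m ∧ ∃ ζ : ℂ, ζ ^ (C i).N = 1 ∧
          ζ ∉ IntermediateField.adjoin ℚ {b ^ m}) →
        IsSeparated C c f (∏ i, (C i).N) b) ∧
      -- (4) numbers of small degree
      ∀ b : ℂ, IsAlgebraic ℚ b → (∀ i, (minpoly ℚ b).natDegree < (C i).N - 1) →
        IsSeparated C c f (∏ i, (C i).N) b) := by
  classical
  refine ⟨fun N hC 𝒱 A _ K _ _ _ H _ τ F X Z χ h U hU T hT hF reg hreg L hL =>
    main c κ C f N hC A H τ F X Z χ h U hU T hT hF reg hreg L hL,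
    fun N hC b hb h => conj hC hb h,
    fun hf hs hc hne => ⟨fun b hb h => special hf hs hc hne hb h, fun b hb h =>
      special hf hs hc hne hb fun i => ⟨1, one_pos,
        Run7.h199.CV.small_degree' hb (hs i).prime (h i)⟩⟩⟩

end Pool.Agent.Results.MP_3af9db_ag.SeparatedCoverings
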